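import Pool.Agent.UNL.Rat
import Pool.Agent.UNL.PartE

/-!
# The transcendental regulator for every elliptic curve with complex multiplication

`A, B, C` are integers with `A > 0`, `D = B² - 4 A C < 0`, `τ = (B + √D) / (2 A)`, `L = ℤ + ℤ τ`,
`E = ℂ / L`: all elliptic curves over `ℂ` with complex multiplication. `E × E` and its Kummer surface
have the same transcendental `H²`; the Kummer surface is a singular K3 surface. `Ξ` is an explicit
element `Σ ± {F}₂ ⊗ g ∧ h` over the function field of `E × E`. It is closed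
(`Σ ± (1 - F) ∧ F ∧ g ∧ h = 0`), its regulator pairs with anti-holomorphic forms through
`Σ ± D(F) dlog g ∧ dlog h`, `D` = Bloch-Wigner dilogarithm. The theorem evaluates the pairing of this
form with every class in `H₂(E × E, ℤ)`; the transcendental part of such a class is determined by its
period `∫ du ∧ dv`, which lies in `ℤ + ℤ τ + ℤ τ²`.
-/

open MeasureTheory Set

namespace Pool.Agent.Results.MP_870c49_nt.EveryCurve

noncomputable section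

/-! ### the curve `E = ℂ / L` and its torsion points -/

/-- `τ = (B + √(B² - 4 A C)) / (2 A)` -/
def tau (A B C : ℤ) : ℂ :=
  ((B : ℂ) + ((√(4 * A * C - B ^ 2) : ℝ) : ℂ) * Complex.I) / (2 * A)

/-- the element `n.1 + n.2 τ` of `L` -/
def el (τ : ℂ) (n : ℤ × ℤ) : ℂ := (n.1 : ℂ) + (n.2 : ℂ) * τ

/-- the Weierstrass `℘`-function of `L` (the term of `n = 0` is `1 / z ^ 2`, as `1 / 0 = 0`) -/
def wp (τ z : ℂ) : ℂ := ∑' n : ℤ × ℤ, (1 / (z - el τ n) ^ 2 - 1 / el τ n ^ 2)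

/-- the group `(1/N) L / L` -/
abbrev G (N : ℕ) : Type := ZMod N × ZMod N

/-- the point of `(1/N) L / L` with index `k` -/
def pt (τ : ℂ) {N : ℕ} (k : G N) : ℂ := ((k.1.val : ℂ) + (k.2.val : ℂ) * τ) / N

/-- multiplication by `α = A τ` on `(1/N) L / L` (`α² = B α - A C`) -/
def mulA (A B C : ℤ) {N : ℕ} (k : G N) : G N := (-(C * k.2), A * k.1 + B * k.2)

/-- multiplication by `β = 1 - α` on `(1/N) L / L` -/
def mulB (A B C : ℤ) {N : ℕ} (k : G N) : G N := k - mulA A B C k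

/-- `nab = N(α) N(β)` -/
def nab (A B C : ℤ) : ℤ := A * C * (1 - B + A * C)

/-- the prime `c` is inert: the form `A x² + B x y + C y²` has no nontrivial zero mod `c` -/
def Inert (A B C : ℤ) (c : ℕ) : Prop :=
  c.Prime ∧ ∀ x y : ℤ, (c : ℤ) ∣ A * x ^ 2 + B * x * y + C * y ^ 2 → (c : ℤ) ∣ x ∧ (c : ℤ) ∣ y

/-! ### the weights -/

open Classical in
/-- the weight `H(k, l)`: `0` unless `c k = c l = 0`, and then
`1 - c [k, l linearly dependent mod c] + (c³ - c²) [k = l = 0]` -/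
def H (c : ℕ) {N : ℕ} (k l : G N) : ℤ :=
  if c • k = 0 ∧ c • l = 0 then
    1 - (if ∃ x y : ℤ, ¬ ((c : ℤ) ∣ x ∧ (c : ℤ) ∣ y) ∧ x • k + y • l = 0 then (c : ℤ) else 0)
      + (if k = 0 ∧ l = 0 then (c : ℤ) ^ 3 - (c : ℤ) ^ 2 else 0)
  else 0

/-- `H(βk, αl) - H(αβk, αl) + H(αβk, βl)` -/
def V (A B C : ℤ) (c : ℕ) {N : ℕ} (k l : G N) : ℤ :=
  H c (mulB A B C k) (mulA A B C l) - H c (mulA A B C (mulB A B C k)) (mulA A B C l)
    + H c (mulA A B C (mulB A B C k)) (mulB A B C l)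

/-- the weight `W(k, l)` -/
def W (A B C : ℤ) (c : ℕ) {N : ℕ} (k l : G N) : ℤ := V A B C c k l - V A B C c l k

/-! ### the functions on `E × E`, with coordinates `u, v` -/

/-- `(℘(u+h) - ℘(h)) / (℘(v+h) - ℘(h))` -/
def F (τ h u v : ℂ) : ℂ := (wp τ (u + h) - wp τ h) / (wp τ (v + h) - wp τ h)

/-- `(℘(z) - ℘(y)) / (℘(x) - ℘(y))` -/
def Y (τ x y z : ℂ) : ℂ := (wp τ z - wp τ y) / (wp τ x - wp τ y)

/-- `(℘(z) - ℘(k))^(N²) / ∏_s (℘(z+s) - ℘(k))` -/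
def gA (τ : ℂ) {N : ℕ} [NeZero N] (k : G N) (z : ℂ) : ℂ :=
  (wp τ z - wp τ (pt τ k)) ^ (N ^ 2) / ∏ s : G N, (wp τ (z + pt τ s) - wp τ (pt τ k))

/-- `∏_{e ≠ 0} (℘(z) - ℘(e))` -/
def gC (τ : ℂ) (N : ℕ) [NeZero N] (z : ℂ) : ℂ :=
  ∏ e ∈ (Finset.univ : Finset (G N)).erase 0, (wp τ z - wp τ (pt τ e))

/-- translation by a pair of points of `(1/N) L / L` -/
def tr (τ : ℂ) {N : ℕ} (s t : G N) (f : ℂ → ℂ → ℂ) (u v : ℂ) : ℂ := f (u + pt τ s) (v + pt τ t)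

/-- the element `Ξ = Σ ± {F}₂ ⊗ g ∧ h`, written as the functional `T ↦ Σ ± T F g h`: the sum over all
translates of `Σ_{k,l ≠ 0} W(k,l) (4 Σ_{h ≠ 0} {F_h}₂ ⊗ A_k(u) ∧ A_l(v)
+ Σ_{j ≠ 0, ±k} {Y_{k,j}(u)}₂ ⊗ C(u-v) ∧ A_l(v) + Σ_{j ≠ 0, ±l} {Y_{l,j}(v)}₂ ⊗ C(u-v) ∧ A_k(u))` -/
def Xi (A B C : ℤ) (c N : ℕ) [NeZero N] {M : Type} [AddCommGroup M]
    (T : (ℂ → ℂ → ℂ) → (ℂ → ℂ → ℂ) → (ℂ → ℂ → ℂ) → M) : M :=
  let τ := tau A B C
  ∑ s : G N, ∑ t : G N,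
    ∑ k ∈ (Finset.univ : Finset (G N)).erase 0, ∑ l ∈ (Finset.univ : Finset (G N)).erase 0,
      W A B C c k l • ((4 : ℤ) • (∑ h ∈ (Finset.univ : Finset (G N)).erase 0,
          T (tr τ s t fun u v => F τ (pt τ h) u v) (tr τ s t fun u _ => gA τ k u)
            (tr τ s t fun _ v => gA τ l v))
        + (∑ j ∈ (((Finset.univ : Finset (G N)).erase 0).erase k).erase (-k),
          T (tr τ s t fun u _ => Y τ (pt τ k) (pt τ j) u) (tr τ s t fun u v => gC τ N (u - v))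
            (tr τ s t fun _ v => gA τ l v))
        + (∑ j ∈ (((Finset.univ : Finset (G N)).erase 0).erase l).erase (-l),
          T (tr τ s t fun _ v => Y τ (pt τ l) (pt τ j) v) (tr τ s t fun u v => gC τ N (u - v))
            (tr τ s t fun u _ => gA τ k u)))

/-! ### closedness -/

/-- none of `N u`, `N v`, `N (u + v)`, `N (u - v)` is in `L` -/
def Generic (τ : ℂ) (N : ℕ) (u v : ℂ) : Prop :=
  ∀ n, N * u ≠ el τ n ∧ N * v ≠ el τ n ∧ N * (u + v) ≠ el τ n ∧ N * (u - v) ≠ el τ n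

/-- the multiplicative group of nowhere vanishing functions on the generic points -/
abbrev Fn (τ : ℂ) (N : ℕ) : Type := Additive ({q : ℂ × ℂ // Generic τ N q.1 q.2} → ℂˣ)

open Classical in
/-- a function as an element of this group (a value `0` is replaced by `1`; the theorem shows that
this case does not occur) -/
def cl (τ : ℂ) (N : ℕ) (f : ℂ → ℂ → ℂ) : Fn τ N :=
  Additive.ofMul (fun q => if h : f q.1.1 q.1.2 ≠ 0 then Units.mk0 (f q.1.1 q.1.2) h else 1)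

/-- the boundary `Σ ± (1 - F) ∧ F ∧ g ∧ h` of `Ξ` is `0` in `Λ⁴ ⊗ ℚ`: all alternating forms vanish
on it -/
def Closed (A B C : ℤ) (c N : ℕ) [NeZero N] : Prop :=
  let τ := tau A B C
  ∀ Φ : Fn τ N [⋀^Fin 4]→ₗ[ℤ] ℂ, Xi A B C c N (fun f g h =>
    Φ ![cl τ N fun u v => 1 - f u v, cl τ N f, cl τ N g, cl τ N h]) = 0

/-- at generic points no function that occurs in `Ξ` vanishes, and no `1 - F` -/
def Nonvanishing (A B C : ℤ) (N : ℕ) [NeZero N] : Prop :=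
  let τ := tau A B C
  ∀ (s t : G N) (u v : ℂ), Generic τ N u v → ∀ k : G N, k ≠ 0 →
    tr τ s t (fun u v => F τ (pt τ k) u v) u v ≠ 0 ∧
    tr τ s t (fun u v => F τ (pt τ k) u v) u v ≠ 1 ∧
    tr τ s t (fun u _ => gA τ k u) u v ≠ 0 ∧
    tr τ s t (fun _ v => gA τ k v) u v ≠ 0 ∧
    tr τ s t (fun u v => gC τ N (u - v)) u v ≠ 0 ∧
    ∀ j : G N, j ≠ 0 → j ≠ k → j ≠ -k →
      tr τ s t (fun u _ => Y τ (pt τ k) (pt τ j) u) u v ≠ 0 ∧
      tr τ s t (fun u _ => Y τ (pt τ k) (pt τ j) u) u v ≠ 1 ∧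
      tr τ s t (fun _ v => Y τ (pt τ k) (pt τ j) v) u v ≠ 0 ∧
      tr τ s t (fun _ v => Y τ (pt τ k) (pt τ j) v) u v ≠ 1

/-! ### the regulator -/

/-- the Bloch-Wigner dilogarithm `arg (1 - w) log |w| + Im Li₂ w`, where
`Li₂ w = - ∫₀¹ log (1 - t w) dt / t` -/
def D (w : ℂ) : ℝ :=
  Complex.arg (1 - w) * Real.log ‖w‖ - ∫ t in (0:ℝ)..1, Complex.arg (1 - t * w) / t

/-- the function `wedge f g` with `dlog f ∧ dlog g = wedge f g du ∧ dv` -/
def wedge (f g : ℂ → ℂ → ℂ) (u v : ℂ) : ℂ :=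
  (deriv (fun w => f w v) u * deriv (fun w => g u w) v
    - deriv (fun w => f u w) v * deriv (fun w => g w v) u) / (f u v * g u v)

/-- the coefficient of `du ∧ dv` in the regulator form `Σ ± D(F) dlog g ∧ dlog h` of `Ξ` -/
def reg (A B C : ℤ) (c N : ℕ) [NeZero N] (u v : ℂ) : ℂ :=
  Xi A B C c N (fun f g h => (D (f u v) : ℂ) * wedge g h u v)

/-- a fundamental domain of `E × E`, in the coordinates `u = s + t τ`, `v = s' + t' τ` -/
def cell : Set ((ℝ × ℝ) × (ℝ × ℝ)) :=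
  (Ioc (0:ℝ) 1 ×ˢ Ioc (0:ℝ) 1) ×ˢ (Ioc (0:ℝ) 1 ×ˢ Ioc (0:ℝ) 1)

/-- the regulator form in these coordinates -/
def rg (A B C : ℤ) (c N : ℕ) [NeZero N] (p : (ℝ × ℝ) × (ℝ × ℝ)) : ℂ :=
  reg A B C c N ((p.1.1 : ℂ) + (p.1.2 : ℂ) * tau A B C) ((p.2.1 : ℂ) + (p.2.2 : ℂ) * tau A B C)

/-- the constant `ρ = -8 A³ N¹⁰ (c³ - c⁻³) (α (1-α))² / (|D| nab³)`, an element of `ℚ(τ)` -/
def rho (A B C : ℤ) (c N : ℕ) : ℂ :=
  -(8 * A ^ 3 * N ^ 10 * (c ^ 3 - 1 / c ^ 3) * (A * tau A B C * (1 - A * tau A B C)) ^ 2 /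
    ((4 * A * C - B ^ 2) * nab A B C ^ 3))

/-! ### comparison with the definitions of the proof -/

section bridge

variable (a : UNL.Par)

lemma wp_eq : wp (UNL.tau a) = UNL.P a := by
  funext u
  simp only [wp, UNL.P, Pool.Agent.EllSch.wp, UNL.Gen.lat_xx]
  rfl

lemma pt_eq {N : ℕ} (k : G N) : pt (UNL.tau a) k = UNL.tp a k := rfl

lemma F_eq : F (UNL.tau a) = UNL.Ff a := by
  funext h u v
  simp only [F, UNL.Ff, wp_eq]

lemma Y_eq : Y (UNL.tau a) = UNL.Yf a := by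
  funext x y z
  simp only [Y, UNL.Yf, wp_eq]

lemma gA_eq {N : ℕ} [NeZero N] (k : G N) : gA (UNL.tau a) k = UNL.Af a k := by
  funext z
  simp only [gA, UNL.Af, wp_eq, pt_eq]

lemma gC_eq (N : ℕ) [NeZero N] : gC (UNL.tau a) N = UNL.Cf a N := by
  funext z
  simp only [gC, UNL.Cf, wp_eq, pt_eq]

lemma W_eq (c : ℕ) {N : ℕ} (k l : G N) : W a.A a.B a.C c k l = UNL.Wt a c k l := rfl

lemma tr_eq {N : ℕ} (s t : G N) : tr (UNL.tau a) s t = UNL.tr a s t := rfl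

lemma tau_eq : tau a.A a.B a.C = UNL.tau a := rfl

lemma Xi_eq (c N : ℕ) [NeZero N] {M : Type} [AddCommGroup M]
    (T : (ℂ → ℂ → ℂ) → (ℂ → ℂ → ℂ) → (ℂ → ℂ → ℂ) → M) :
    Xi a.A a.B a.C c N T = UNL.Gen.Xi a (UNL.Wt a c : UNL.G N → UNL.G N → ℤ) T := by
  simp only [Xi, UNL.Gen.Xi, UNL.xi, tau_eq, F_eq, Y_eq, gA_eq, gC_eq, pt_eq, tr_eq, W_eq]

lemma reg_eq (c N : ℕ) [NeZero N] :
    reg a.A a.B a.C c N = UNL.Gen.XReg a (UNL.Wt a c : UNL.G N → UNL.G N → ℤ) := by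
  funext u v
  simp only [reg, UNL.Gen.XReg, Xi_eq]
  rfl

lemma gen_eq (N : ℕ) : Generic (UNL.tau a) N = UNL.Gen.Gp a N := by
  funext u v
  apply propext
  simp only [Generic, UNL.Gen.Gp, UNL.Gen.ofl_iff]
  exact ⟨fun h => ⟨fun n => (h n).1, fun n => (h n).2.1, fun n => (h n).2.2.1,
    fun n => (h n).2.2.2⟩, fun h n => ⟨h.1 n, h.2.1 n, h.2.2.1 n, h.2.2.2 n⟩⟩

open Classical in
/-- functions on the set of points with a property -/
def clP (P : ℂ → ℂ → Prop) (f : ℂ → ℂ → ℂ) : Additive ({q : ℂ × ℂ // P q.1 q.2} → ℂˣ) :=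
  Additive.ofMul (fun q => if h : f q.1.1 q.1.2 ≠ 0 then Units.mk0 (f q.1.1 q.1.2) h else 1)

lemma closed_aux (c : ℕ) (hc : c.Prime) (N : ℕ) [NeZero N] (hN : (2 * c * UNL.nab a : ℤ) ∣ N)
    (P : ℂ → ℂ → Prop) (hP : P = UNL.Gen.Gp a N)
    (Φ : (Additive ({q : ℂ × ℂ // P q.1 q.2} → ℂˣ)) [⋀^Fin 4]→ₗ[ℤ] ℂ) :
    UNL.Gen.Xi a (UNL.Wt a c : UNL.G N → UNL.G N → ℤ) (fun f g h =>
      Φ ![clP P fun u v => 1 - f u v, clP P f, clP P g, clP P h]) = 0 := by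
  subst hP
  exact UNL.Gen.Xi_closed a c hc N hN Φ

lemma closed_eq (c : ℕ) (hc : c.Prime) (N : ℕ) [NeZero N] (hN : (2 * c * UNL.nab a : ℤ) ∣ N) :
    Closed a.A a.B a.C c N := by
  intro Φ
  rw [Xi_eq]
  exact closed_aux a c hc N hN _ (gen_eq a N) Φ

lemma inert_iff (c : ℕ) : Inert a.A a.B a.C c ↔
    c.Prime ∧ ∀ m : ℤ × ℤ, (c : ℤ) ∣ UNL.fm a m → (c : ℤ) ∣ m.1 ∧ (c : ℤ) ∣ m.2 := by
  refine and_congr_right fun _ => ⟨fun h m hm => ?_, fun h x y hxy => ?_⟩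
  · have := h m.1 (-m.2) (by
      have e : a.A * m.1 ^ 2 + a.B * m.1 * -m.2 + a.C * (-m.2) ^ 2 = UNL.fm a m := by
        simp only [UNL.fm]; ring
      rw [e]; exact hm)
    exact ⟨this.1, (dvd_neg).1 this.2⟩
  · have := h (x, -y) (by
      have e : UNL.fm a (x, -y) = a.A * x ^ 2 + a.B * x * y + a.C * y ^ 2 := by
        simp only [UNL.fm]; ring
      rw [e]; exact hxy)
    exact ⟨this.1, (dvd_neg).1 this.2⟩

lemma series_iff (s l : ℂ) :
    HasSum (fun n : ℤ × ℤ => (starRingEnd ℂ) (el (UNL.tau a) n) ^ 2 /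
      ((‖el (UNL.tau a) n‖ ^ 2 : ℝ) : ℂ) ^ s) l ↔
    HasSum (fun m : ℤ × ℤ =>
      if m = 0 then 0 else UNL.mm a m ^ 2 / ((‖UNL.mm a m‖ ^ 2 : ℝ) : ℂ) ^ s) l := by
  rw [← (Equiv.prodCongr (Equiv.refl ℤ) (Equiv.neg ℤ)).hasSum_iff]
  refine iff_of_eq (congrArg (fun f => HasSum f l) ?_)
  funext n
  have e : UNL.mm a n = (starRingEnd ℂ) (el (UNL.tau a)
      ((Equiv.prodCongr (Equiv.refl ℤ) (Equiv.neg ℤ)) n)) := by
    simp only [UNL.mm, el, Equiv.prodCongr_apply, Prod.map_fst, Prod.map_snd, Equiv.refl_apply,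
      Equiv.neg_apply, map_add, map_mul, map_intCast]
    push_cast
    ring
  simp only [Function.comp]
  rw [← e]
  by_cases h : n = 0
  · rw [if_pos h, h]
    simp [UNL.mm]
  · rw [if_neg h]
    have e2 : ‖el (UNL.tau a) ((Equiv.prodCongr (Equiv.refl ℤ) (Equiv.neg ℤ)) n)‖ =
        ‖UNL.mm a n‖ := by
      rw [e, RCLike.norm_conj]
    rw [e2]

lemma nonvan (N : ℕ) [NeZero N] : Nonvanishing a.A a.B a.C N := by
  intro s t u v hg k hk
  have hG : UNL.Gen.Gp a N (u + UNL.tp a s) (v + UNL.tp a t) := by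
    have h : UNL.Gen.Gp a N u v := by rw [← gen_eq]; exact hg
    exact UNL.Gen.Gp_add a h s t
  simp only [tau_eq, tr, pt_eq, F_eq, Y_eq, gA_eq, gC_eq]
  exact ⟨UNL.Gen.F_ne a hG hk, UNL.Gen.F_ne_one a hG hk, UNL.Gen.A_ne0 a hG.1 hk,
    UNL.Gen.A_ne0 a hG.2.1 hk, UNL.Gen.C_ne0 a hG.2.2.2, fun j hj h1 h2 =>
      ⟨UNL.Gen.Y_ne a hG.1 hk hj h1 h2, UNL.Gen.Y_ne_one a hG.1 hk hj h1 h2,
        UNL.Gen.Y_ne a hG.2.1 hk hj h1 h2, UNL.Gen.Y_ne_one a hG.2.1 hk hj h1 h2⟩⟩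

lemma rg_int (c N : ℕ) [NeZero N]
    (hi : Integrable (fun q : UNL.E × UNL.E =>
      UNL.Gen.XReg a (UNL.Wt a c : UNL.G N → UNL.G N → ℤ) (UNL.cu a q.1) (UNL.cu a q.2))) :
    IntegrableOn (rg a.A a.B a.C c N) cell ∧
    ∫ p in cell, rg a.A a.B a.C c N p = ∫ q : UNL.E × UNL.E,
      UNL.Gen.XReg a (UNL.Wt a c : UNL.G N → UNL.G N → ℤ) (UNL.cu a q.1) (UNL.cu a q.2) := by
  have h := UNL.Gen.int_cell a
    (UNL.Gen.XReg_per2 a (UNL.Wt a c : UNL.G N → UNL.G N → ℤ)) hi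
  have e : rg a.A a.B a.C c N = fun p : (ℝ × ℝ) × (ℝ × ℝ) =>
      UNL.Gen.XReg a (UNL.Wt a c : UNL.G N → UNL.G N → ℤ)
        ((p.1.1 : ℂ) + (p.1.2 : ℂ) * UNL.tau a) ((p.2.1 : ℂ) + (p.2.2 : ℂ) * UNL.tau a) := by
    funext p
    simp only [rg, reg_eq, tau_eq]
  rw [e]
  exact ⟨h.1, h.2.symm⟩

lemma rho_eq (c N : ℕ) : rho a.A a.B a.C c N = -(8 * a.A ^ 3 * N ^ 10 * (c ^ 3 - 1 / c ^ 3) *
    (UNL.alp a * (1 - UNL.alp a)) ^ 2 / ((4 * a.A * a.C - a.B ^ 2) * UNL.nab a ^ 3)) := rfl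

end bridge

/-- **The transcendental regulator on `E × E` for every elliptic curve `E` with complex
multiplication.** -/
theorem result (A B C : ℤ) (hA : 0 < A) (hD : B ^ 2 < 4 * A * C) :
    (∃ c, Inert A B C c) ∧
    ∃ L : ℂ → ℂ, Differentiable ℂ L ∧
      (∀ s : ℂ, 2 < s.re → HasSum (fun n : ℤ × ℤ => (starRingEnd ℂ) (el (tau A B C) n) ^ 2 /
        ((‖el (tau A B C) n‖ ^ 2 : ℝ) : ℂ) ^ s) (L s)) ∧
      (deriv L (-1) = 0 ↔ ∃ ε : ℂ, ‖ε‖ = 1 ∧ ε ≠ 1 ∧ ε ≠ -1 ∧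
        ∀ m : ℤ × ℤ, ∃ n : ℤ × ℤ, ε * el (tau A B C) m = el (tau A B C) n) ∧
      (A ∣ B → (deriv L (-1)).im = 0) ∧
      ∀ c : ℕ, Inert A B C c → ∀ (N : ℕ) [NeZero N], 2 * c * nab A B C ∣ N →
        Nonvanishing A B C N ∧ Closed A B C c N ∧
        (∀ u v : ℂ, reg A B C c N (-u) (-v) = reg A B C c N u v) ∧
        IntegrableOn (rg A B C c N) cell ∧
        ∫ p in cell, rg A B C c N p = (2 * Real.pi) ^ 3 * rho A B C c N * deriv L (-1) ∧
        (∀ lam : ℂ, 1 / (2 * Real.pi) ^ 3 * ∫ p in cell, 2 * (lam * rg A B C c N p).re =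
          2 * (lam * rho A B C c N * deriv L (-1)).re) ∧
        (A ∣ B → ∀ x y z : ℤ, ∃ q : ℚ,
          (q = 0 ↔ (((x : ℂ) + y * tau A B C + z * tau A B C ^ 2) * rho A B C c N).re = 0) ∧
          1 / (2 * (Real.pi : ℂ)) ^ 3 * ((∫ p in cell,
            2 * (((x : ℂ) + y * tau A B C + z * tau A B C ^ 2) * rg A B C c N p).re : ℝ) : ℂ) =
            q * deriv L (-1)) := by
  set a : UNL.Par := ⟨A, B, C, hA, hD⟩ with ha
  obtain ⟨L, hdiff, hL, hd⟩ := UNL.Lfun a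
  refine ⟨?_, L, hdiff, fun s hs => (series_iff a s (L s)).2 (hL s hs), ?_,
    fun h => UNL.Gen.dL_real a h hd, ?_⟩
  · obtain ⟨c, h1, h2⟩ := UNL.inert a
    exact ⟨c, (inert_iff a c).2 ⟨h1, h2⟩⟩
  · have h1 : (-(6 * (UNL.sD a / (2 * a.A * Real.pi)) ^ 5 : ℝ) : ℂ) ≠ 0 := by
      refine neg_ne_zero.2 ?_
      rw [Complex.ofReal_ne_zero]
      have := Real.pi_pos
      have := UNL.sD_pos a
      have := UNL.A_pos a
      positivity
    rw [hd, mul_eq_zero, or_iff_right h1]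
    exact UNL.E42_eq_zero_iff a
  · intro c hc N _ hN
    obtain ⟨hc1, hc2⟩ := (inert_iff a c).1 hc
    obtain ⟨i1, i2⟩ := UNL.Gen.int_XReg a c hc1 hc2 N hN hL hd
    obtain ⟨hi, hv⟩ := rg_int a c N i1
    have hI : ∫ p in cell, rg A B C c N p =
        (2 * Real.pi) ^ 3 * rho A B C c N * deriv L (-1) := by
      rw [hv, i2, rho_eq a]
      ring
    have hlam : ∀ lam : ℂ, ∫ p in cell, 2 * (lam * rg A B C c N p).re =
        2 * (lam * ((2 * Real.pi) ^ 3 * rho A B C c N * deriv L (-1))).re := by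
      intro lam
      have h1 : ∫ p in cell, (lam * rg A B C c N p).re =
          (∫ p in cell, lam * rg A B C c N p).re := integral_re (hi.const_mul _)
      have h2 : ∫ p in cell, lam * rg A B C c N p = lam * ∫ p in cell, rg A B C c N p :=
        integral_const_mul _ _
      have h3 : ∫ p in cell, 2 * (lam * rg A B C c N p).re =
          2 * ∫ p in cell, (lam * rg A B C c N p).re := integral_const_mul _ _
      rw [h3, h1, h2, hI]
    have hpi : (Real.pi : ℝ) ≠ 0 := Real.pi_pos.ne'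
    have hlam' : ∀ lam : ℂ, 1 / (2 * Real.pi) ^ 3 * ∫ p in cell, 2 * (lam * rg A B C c N p).re =
        2 * (lam * rho A B C c N * deriv L (-1)).re := by
      intro lam
      have e : lam * ((2 * (Real.pi : ℂ)) ^ 3 * rho A B C c N * deriv L (-1)) =
          (((2 * Real.pi) ^ 3 : ℝ) : ℂ) * (lam * rho A B C c N * deriv L (-1)) := by
        push_cast
        ring
      rw [hlam, e, Complex.re_ofReal_mul]
      field_simp
    refine ⟨nonvan a N, closed_eq a c hc1 N hN, fun u v => ?_, hi, hI, hlam', fun hAB x y z => ?_⟩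
    · have := UNL.Gen.XReg_neg a (UNL.Wt a c : UNL.G N → UNL.G N → ℤ) u v
      rw [← reg_eq] at this
      exact this
    · obtain ⟨q, hq⟩ := UNL.Gen.per_rat a c N x y z
      have hq2 : 2 * (((x : ℂ) + y * tau A B C + z * tau A B C ^ 2) * rho A B C c N).re = q := hq
      have hre : deriv L (-1) = (((deriv L (-1)).re : ℝ) : ℂ) := by
        apply Complex.ext
        · simp
        · simp [UNL.Gen.dL_real a hAB hd]
      have h1 := hlam' ((x : ℂ) + y * tau A B C + z * tau A B C ^ 2)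
      set w : ℂ := (x : ℂ) + y * tau A B C + z * tau A B C ^ 2
      have e : (w * rho A B C c N * deriv L (-1)).re =
          (w * rho A B C c N).re * (deriv L (-1)).re := by
        rw [hre, Complex.re_mul_ofReal, Complex.ofReal_re]
      refine ⟨q, ?_, ?_⟩
      · have h0 : (q = 0) ↔ ((q : ℝ) = 0) := by norm_cast
        rw [h0, ← hq2]
        constructor
        · intro h
          linarith
        · intro h
          rw [h, mul_zero]
      · rw [e, ← mul_assoc, hq2] at h1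
        rw [hre]
        have h2 := congrArg (fun r : ℝ => (r : ℂ)) h1
        push_cast at h2
        exact h2

end

end Pool.Agent.Results.MP_870c49_nt.EveryCurve
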