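import Pool.Agent.D8.HandIn
import Pool.Agent.D8S.Main

/-!
# The Mahler measure of `(1+x)(1+y)+(1+z)²t`: the singular K3 surface of discriminant 8
-/

open Real MeasureTheory Set

namespace Pool.Agent.Results.MP_870c49_nt.MahlerMeasureEight

/-- There are Fourier coefficients `a n` of the weight 3 newform `η(z)² η(2z) η(4z) η(8z)²` and an
entire function `L`, the continuation of `Σ a n n⁻ˢ`, such that the logarithmic Mahler measure of
`(1+x)(1+y)+(1+z)²t` is `-8 L'(-1)`. -/
theorem result :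
    ∃ (a : ℕ → ℂ) (L : ℂ → ℂ),
      (∀ z : ℂ, 0 < z.im → HasSum (fun n : ℕ => a n * Complex.exp (2 * π * Complex.I * n * z))
        (ModularForm.eta z ^ 2 * ModularForm.eta (2 * z) * ModularForm.eta (4 * z) *
          ModularForm.eta (8 * z) ^ 2)) ∧
      Differentiable ℂ L ∧
      (∀ s : ℂ, 2 < s.re → LSeriesHasSum a s (L s)) ∧
      ((∫ α in (0:ℝ)..1, ∫ β in (0:ℝ)..1, ∫ γ in (0:ℝ)..1, ∫ δ in (0:ℝ)..1,
          Real.log ‖(1 + Complex.exp (2 * π * α * Complex.I)) *
            (1 + Complex.exp (2 * π * β * Complex.I)) +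
            (1 + Complex.exp (2 * π * γ * Complex.I)) ^ 2 *
            Complex.exp (2 * π * δ * Complex.I)‖ : ℝ) : ℂ)
        = -8 * deriv L (-1) :=
  D8.result_of D8S.main

end Pool.Agent.Results.MP_870c49_nt.MahlerMeasureEight
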