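import Pool.Agent.EE7.Main
import Pool.Agent.EE7.NV
import Pool.Agent.EE7.Forms
import Pool.Agent.K3R.EtaSeries

/-!
# The transcendental regulator of an explicit class on the singular K3 surface
`W : (1+x)² (1+y)² (1+z)² = x y z` (discriminant 7)

`E = ℂ / O`, `O = ℤ[ω]`, `ω = (1+√-7)/2`. Three explicit meromorphic functions `x, y, z` on `E × E`
map `E × E` onto `W`; the holomorphic two-form of `W` pulls back to a multiple of `du ∧ dv`. On `W` the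
element `ξ = {-x}₂ ⊗ y ∧ z + {-y}₂ ⊗ z ∧ x + {-z}₂ ⊗ x ∧ y` is closed, its regulator pairs with
anti-holomorphic forms through `D(-x) dlog y ∧ dlog z + cyclic`, `D` = Bloch-Wigner dilogarithm. The
theorem evaluates the pairing with every class in `H₂(E × E, ℤ)`, whose transcendental part is
determined by its period `∫ du ∧ dv = m + n ω`.
-/

open MeasureTheory Set

namespace Pool.Agent.Results.MP_870c49_nt.TranscendentalRegulator

noncomputable section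

/-- `ω = (1 + √-7) / 2` -/
def om : ℂ := (1 + (√7 : ℝ) * Complex.I) / 2

/-- the element `n.1 + n.2 ω` of the lattice `O` -/
def el (n : ℤ × ℤ) : ℂ := (n.1 : ℂ) + (n.2 : ℂ) * om

/-- the Weierstrass `℘`-function of `O` (the term of `n = 0` is `1 / u ^ 2`, as `1 / 0 = 0`) -/
def wp (u : ℂ) : ℂ := ∑' n : ℤ × ℤ, (1 / (u - el n) ^ 2 - 1 / el n ^ 2)

/-- the coordinate functions of the map `E × E → W` -/
def x (u v : ℂ) : ℂ := -(wp (u + 1 / 2) - wp (1 / 2)) / (wp v - wp (1 / 2))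
def y (u v : ℂ) : ℂ :=
  -(wp (v + (1 - om) / 2) - wp (1 / 2)) / (wp (u + (1 - om) / 2) - wp (1 / 2))
def z (u v : ℂ) : ℂ := -(wp (u - v) - wp (1 / 2)) / (wp (u + v) - wp (1 / 2))

/-- none of `u`, `v`, `u + v`, `u - v` is in `O / 2` -/
def Generic (u v : ℂ) : Prop :=
  ∀ n, 2 * u ≠ el n ∧ 2 * v ≠ el n ∧ 2 * (u + v) ≠ el n ∧ 2 * (u - v) ≠ el n

/-- the Bloch-Wigner dilogarithm `arg (1 - w) log |w| + Im Li₂ w`, where
`Li₂ w = - ∫₀¹ log (1 - t w) dt / t` -/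
def D (w : ℂ) : ℝ :=
  Complex.arg (1 - w) * Real.log ‖w‖ - ∫ t in (0:ℝ)..1, Complex.arg (1 - t * w) / t

/-- the function `wedge f g` with `dlog f ∧ dlog g = wedge f g du ∧ dv` -/
def wedge (f g : ℂ → ℂ → ℂ) (u v : ℂ) : ℂ :=
  (deriv (fun w => f w v) u * deriv (fun w => g u w) v
    - deriv (fun w => f u w) v * deriv (fun w => g w v) u) / (f u v * g u v)

/-- the coefficient of `du ∧ dv` in
`D(-x) dlog y ∧ dlog z + D(-y) dlog z ∧ dlog x + D(-z) dlog x ∧ dlog y` -/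
def reg (u v : ℂ) : ℂ :=
  (D (-x u v) : ℂ) * wedge y z u v + (D (-y u v) : ℂ) * wedge z x u v
    + (D (-z u v) : ℂ) * wedge x y u v

/-- a fundamental domain of `E × E`, in the coordinates `u = s + t ω`, `v = s' + t' ω` -/
def cell : Set ((ℝ × ℝ) × (ℝ × ℝ)) :=
  (Ioc (0:ℝ) 1 ×ˢ Ioc (0:ℝ) 1) ×ˢ (Ioc (0:ℝ) 1 ×ˢ Ioc (0:ℝ) 1)

/-- the integrand in these coordinates -/
def rg (p : (ℝ × ℝ) × (ℝ × ℝ)) : ℂ :=
  reg ((p.1.1 : ℂ) + (p.1.2 : ℂ) * om) ((p.2.1 : ℂ) + (p.2.2 : ℂ) * om)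

lemma om_eq : om = EE7.om := rfl

lemma el_eq (n : ℤ × ℤ) : el n = EE7.xx n := rfl

lemma wp_eq : wp = EE7.P := by
  funext u
  simp only [wp, EE7.P, Pool.Agent.EllSch.wp, EE7.lat_eq, el_eq]

lemma x_eq : x = EE7.xf := by
  funext u v
  simp only [x, EE7.xf, wp_eq, EE7.e0]

lemma y_eq : y = EE7.yf := by
  funext u v
  simp only [y, EE7.yf, wp_eq, EE7.e0, EE7.hp, EE7.ob, om_eq]

lemma z_eq : z = EE7.zf := by
  funext u v
  simp only [z, EE7.zf, wp_eq, EE7.e0]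

lemma D_eq : D = EE7.BW := rfl

lemma wedge_eq : wedge = EE7.wedge := rfl

lemma reg_eq : reg = EE7.Reg := by
  funext u v
  simp only [reg, EE7.Reg, x_eq, y_eq, z_eq, D_eq, wedge_eq]

lemma gen_of {u v : ℂ} (h : Generic u v) : EE7.Gen u v := by
  simp only [EE7.Gen, EE7.ofl_iff]
  exact ⟨fun n => (h n).1, fun n => (h n).2.1, fun n => (h n).2.2.1, fun n => (h n).2.2.2⟩

lemma rg_int : IntegrableOn rg cell ∧
    ∫ p in cell, rg p = ∫ q : EE7.E × EE7.E, EE7.Reg (EE7.cu q.1) (EE7.cu q.2) := by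
  have h := EE7.int_box EE7.Reg_per1 EE7.Reg_per2 EE7.Reg_int
  have e : rg = fun p : (ℝ × ℝ) × (ℝ × ℝ) =>
      EE7.Reg ((p.1.1 : ℂ) + (p.1.2 : ℂ) * EE7.om) ((p.2.1 : ℂ) + (p.2.2 : ℂ) * EE7.om) := by
    funext p
    simp only [rg, reg_eq, om_eq]
  rw [e]
  exact ⟨h.1, h.2.symm⟩

theorem result :
    (∀ u v : ℂ, Generic u v →
      (1 + x u v) ^ 2 * (1 + y u v) ^ 2 * (1 + z u v) ^ 2 = x u v * y u v * z u v ∧
      x u v ≠ 0 ∧ y u v ≠ 0 ∧ z u v ≠ 0 ∧ x u v ≠ -1 ∧ y u v ≠ -1 ∧ z u v ≠ -1) ∧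
    (∃ c : ℂ, c ≠ 0 ∧ ∀ u v : ℂ, Generic u v →
      wedge y z u v = c * ((x u v - 1) / (x u v + 1)) ∧
      wedge z x u v = c * ((y u v - 1) / (y u v + 1)) ∧
      wedge x y u v = c * ((z u v - 1) / (z u v + 1))) ∧
    ∃ (a : ℕ → ℂ) (L : ℂ → ℂ),
      (∀ τ : ℂ, 0 < τ.im → HasSum (fun n : ℕ => a n * Complex.exp (2 * Real.pi * Complex.I * n * τ))
        (ModularForm.eta τ ^ 3 * ModularForm.eta (7 * τ) ^ 3)) ∧
      Differentiable ℂ L ∧ (∀ s : ℂ, 2 < s.re → LSeriesHasSum a s (L s)) ∧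
      deriv L (-1) ≠ 0 ∧
      IntegrableOn rg cell ∧
      ∫ p in cell, rg p = -(32 * (Real.pi : ℂ) ^ 3 * deriv L (-1)) ∧
      ∀ m n : ℤ, 1 / (2 * (Real.pi : ℂ)) ^ 3 *
        ((∫ p in cell, 2 * (((m : ℂ) + n * om) * rg p).re : ℝ) : ℂ) =
          -4 * (2 * m + n) * deriv L (-1) := by
  refine ⟨fun u v h => ?_, ⟨8 * (EE7.e1 - EE7.e2), ?_, fun u v h => ?_⟩, ?_⟩
  · rw [x_eq, y_eq, z_eq]
    exact ⟨EE7.W_eq (gen_of h), EE7.xyz_ne (gen_of h)⟩
  · exact mul_ne_zero (by norm_num) (sub_ne_zero.2 EE7.e12)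
  · rw [x_eq, y_eq, z_eq, wedge_eq]
    exact ⟨EE7.wedge_yz (gen_of h), EE7.wedge_zx (gen_of h), EE7.wedge_xy (gen_of h)⟩
  · refine ⟨BZLFun.cf, BZLFun.Lf, fun τ hτ => EtaS.eta7_series hτ, BZLFun.Lf_diff,
      fun s hs => BZLFun.LSeries_cf hs, ?_⟩
    have hL : ∀ s : ℂ, 2 < s.re → BZLFun.Lf s = MM7.Lser s := fun s hs => MM7L.Lser_eq hs
    have hd := MM7.L_deriv BZLFun.Lf BZLFun.Lf_diff hL
    have hval := EE7.Reg_val BZLFun.Lf BZLFun.Lf_diff hL
    obtain ⟨hi, hv⟩ := rg_int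
    have hI : ∫ p in cell, rg p = -(32 * (Real.pi : ℂ) ^ 3 * deriv BZLFun.Lf (-1)) := by
      rw [hv, hval]
    have hreal : (deriv BZLFun.Lf (-1)).im = 0 := by
      rw [hd, ← Complex.ofReal_neg, Complex.im_ofReal_mul, MM7.E42_real, mul_zero]
    have hne : deriv BZLFun.Lf (-1) ≠ 0 := by
      rw [hd]
      refine mul_ne_zero (neg_ne_zero.2 ?_) EE7.E42_ne
      rw [Complex.ofReal_ne_zero]
      have := Real.pi_pos
      positivity
    refine ⟨hne, hi, hI, fun m n => ?_⟩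
    have e1 : ∫ p in cell, 2 * (((m : ℂ) + n * om) * rg p).re =
        2 * (((m : ℂ) + n * om) * ∫ p in cell, rg p).re := by
      have h1 : ∫ p in cell, (((m : ℂ) + n * om) * rg p).re =
          (∫ p in cell, ((m : ℂ) + n * om) * rg p).re := integral_re (hi.const_mul _)
      have h2 : ∫ p in cell, ((m : ℂ) + n * om) * rg p =
          ((m : ℂ) + n * om) * ∫ p in cell, rg p := integral_const_mul _ _
      have h3 : ∫ p in cell, 2 * (((m : ℂ) + n * om) * rg p).re =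
          2 * ∫ p in cell, (((m : ℂ) + n * om) * rg p).re := integral_const_mul _ _
      rw [h3, h1, h2]
    rw [e1, hI]
    have hre : (deriv BZLFun.Lf (-1)) = (((deriv BZLFun.Lf (-1)).re : ℝ) : ℂ) := by
      apply Complex.ext
      · simp
      · simp [hreal]
    set r := (deriv BZLFun.Lf (-1)).re
    rw [hre]
    have hom : om.re = 1 / 2 := EE7.om_re
    have e2 : (((m : ℂ) + n * om) * -(32 * (Real.pi : ℂ) ^ 3 * (r : ℂ))).re =
        -((m + n / 2) * (32 * Real.pi ^ 3 * r)) := by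
      have : -(32 * (Real.pi : ℂ) ^ 3 * (r : ℂ)) = ((-(32 * Real.pi ^ 3 * r) : ℝ) : ℂ) := by
        push_cast
        ring
      rw [this, Complex.mul_re, Complex.ofReal_im, Complex.ofReal_re, mul_zero, sub_zero,
        Complex.add_re, Complex.intCast_re, Complex.mul_re, Complex.intCast_re, Complex.intCast_im,
        hom]
      ring
    rw [e2]
    have hp : (Real.pi : ℂ) ≠ 0 := Complex.ofReal_ne_zero.mpr Real.pi_pos.ne'
    push_cast
    field_simp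
    ring

end

end Pool.Agent.Results.MP_870c49_nt.TranscendentalRegulator
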